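import Pool.Agent.J4H47.GC.Def

/-!
# The weighted inequality of the means for a function on the degrees (piece AM)
-/

set_option autoImplicit false

open Finset

namespace Pool.Agent.J4H17.GC

open Pool.Agent.J4H47.GC

theorem t_AM : S_AM := by
  intro d m u hu hM
  set M : ℝ := ∑ j ∈ range d, (m j : ℝ) with hMd
  set S : ℝ := ∑ j ∈ range d, ((j : ℝ) * (m j : ℝ)) with hSd
  have hMpos : 0 < M := by
    rw [hMd]; exact_mod_cast hM
  have key : ∀ j : ℕ, u ^ (S / M) * (1 + ((j : ℝ) - S / M) * Real.log u) ≤ u ^ j := by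
    intro j
    have h1 : u ^ j = u ^ (S / M) * Real.exp (((j : ℝ) - S / M) * Real.log u) := by
      rw [Real.rpow_def_of_pos hu, ← Real.exp_add, ← Real.rpow_natCast,
        Real.rpow_def_of_pos hu]
      congr 1; ring
    rw [h1]
    refine mul_le_mul_of_nonneg_left ?_ (Real.rpow_pos_of_pos hu _).le
    have := Real.add_one_le_exp (((j : ℝ) - S / M) * Real.log u)
    linarith
  have keys : ∀ j : ℕ, u ≠ 1 → (j : ℝ) ≠ S / M →
      u ^ (S / M) * (1 + ((j : ℝ) - S / M) * Real.log u) < u ^ j := by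
    intro j hu1 hj
    have h1 : u ^ j = u ^ (S / M) * Real.exp (((j : ℝ) - S / M) * Real.log u) := by
      rw [Real.rpow_def_of_pos hu, ← Real.exp_add, ← Real.rpow_natCast,
        Real.rpow_def_of_pos hu]
      congr 1; ring
    rw [h1]
    refine mul_lt_mul_of_pos_left ?_ (Real.rpow_pos_of_pos hu _)
    have hne : ((j : ℝ) - S / M) * Real.log u ≠ 0 := by
      refine mul_ne_zero (sub_ne_zero.2 hj) ?_
      exact Real.log_ne_zero_of_pos_of_ne_one hu hu1
    have := Real.add_one_lt_exp hne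
    linarith
  have tot : ∑ j ∈ range d, (m j : ℝ) *
      (u ^ (S / M) * (1 + ((j : ℝ) - S / M) * Real.log u)) = M * u ^ (S / M) := by
    have : ∀ j ∈ range d, (m j : ℝ) *
        (u ^ (S / M) * (1 + ((j : ℝ) - S / M) * Real.log u)) =
        u ^ (S / M) * (m j : ℝ) + u ^ (S / M) * Real.log u * ((j : ℝ) * (m j : ℝ)) -
        u ^ (S / M) * Real.log u * (S / M) * (m j : ℝ) := by
      intro j _; ring
    rw [sum_congr rfl this, sum_sub_distrib, sum_add_distrib, ← mul_sum, ← mul_sum, ← mul_sum,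
      ← hMd, ← hSd]
    field_simp
    ring
  constructor
  · rw [← tot]
    exact sum_le_sum fun j _ => mul_le_mul_of_nonneg_left (key j) (Nat.cast_nonneg _)
  · rintro hu1 ⟨i, hi, j, hj, hij, hmi, hmj⟩
    rw [← tot]
    have : ∃ a, a < d ∧ m a ≠ 0 ∧ (a : ℝ) ≠ S / M := by
      by_cases h : (i : ℝ) = S / M
      · refine ⟨j, hj, hmj, ?_⟩
        rw [← h]; exact fun e => hij (by exact_mod_cast e.symm)
      · exact ⟨i, hi, hmi, h⟩
    obtain ⟨a, had, hma, haq⟩ := this
    refine sum_lt_sum (fun j _ => mul_le_mul_of_nonneg_left (key j) (Nat.cast_nonneg _))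
      ⟨a, mem_range.2 had, ?_⟩
    exact mul_lt_mul_of_pos_left (keys a hu1 haq) (by exact_mod_cast Nat.pos_of_ne_zero hma)

end Pool.Agent.J4H17.GC
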