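import Pool.Agent.J4H47.GC.Def

/-!
# Summation over the words (piece SUM)
-/

set_option autoImplicit false

open Finset

namespace Pool.Agent.J4H17.GC

open Pool.Agent.J4H47.GC

theorem t_SUM : S_SUM := by
  intro N n d m q u r hu hr
  rw [Fintype.sum_pow]
  calc ∑ c ∈ range d, (r c : ℝ) * u ^ (2 * c)
      ≤ ∑ c ∈ range d, (∑ w : Fin (n + 1) → Fin N,
          if ∑ j, q (w j) = 2 * (c : ℝ) then ∏ j, (m (w j) : ℝ) else 0) * u ^ (2 * c) := by
        refine sum_le_sum fun c hc => ?_
        exact mul_le_mul_of_nonneg_right (hr c (mem_range.1 hc)) (pow_pos hu _).le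
    _ = ∑ w : Fin (n + 1) → Fin N, ∑ c ∈ range d,
          (if ∑ j, q (w j) = 2 * (c : ℝ) then ∏ j, ((m (w j) : ℝ) * u ^ q (w j)) else 0) := by
        rw [sum_comm]
        refine sum_congr rfl fun c _ => ?_
        rw [sum_mul]
        refine sum_congr rfl fun w _ => ?_
        split_ifs with h
        · rw [prod_mul_distrib, ← Real.rpow_sum_of_pos hu, h]
          congr 1
          rw [← Real.rpow_natCast]; push_cast; rfl
        · simp
    _ ≤ ∑ w : Fin (n + 1) → Fin N, ∏ j, ((m (w j) : ℝ) * u ^ q (w j)) := by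
        refine sum_le_sum fun w _ => ?_
        have hnn : 0 ≤ ∏ j, ((m (w j) : ℝ) * u ^ q (w j)) :=
          prod_nonneg fun j _ => mul_nonneg (Nat.cast_nonneg _) (Real.rpow_pos_of_pos hu _).le
        by_cases h : ∃ c ∈ range d, ∑ j, q (w j) = 2 * (c : ℝ)
        · obtain ⟨c, hc, hce⟩ := h
          rw [sum_eq_single_of_mem c hc, if_pos hce]
          intro b _ hbc
          rw [if_neg]
          intro hb
          apply hbc
          have : (b : ℝ) = c := by linarith
          exact_mod_cast this
        · push_neg at h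
          rw [sum_eq_zero fun c hc => if_neg (h c hc)]
          exact hnn

end Pool.Agent.J4H17.GC
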